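import Mathlib
import Pool.Agent.H892.KT.EN

set_option autoImplicit false

open Filter Topology Set

namespace Pool.Agent.H370.KT

open Pool.Agent.H892.KT

theorem norm_bA_le (p : ℂ × ℂ) (hp : ‖p‖ ≤ 1) : ‖bA p‖ ≤ ‖p‖ := by
  have h1 : ‖p.1‖ ≤ ‖p‖ := norm_fst_le p
  have h2 : ‖p.2‖ ≤ ‖p‖ := norm_snd_le p
  rw [bA, Prod.norm_def]
  refine max_le ?_ h2
  show ‖p.1 * p.2‖ ≤ ‖p‖
  rw [norm_mul]
  calc ‖p.1‖ * ‖p.2‖ ≤ 1 * ‖p.2‖ := mul_le_mul_of_nonneg_right (h1.trans hp) (norm_nonneg _)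
    _ = ‖p.2‖ := one_mul _
    _ ≤ ‖p‖ := h2

theorem orb_le (σ : ZMod 1 → ℂ × ℂ → ℂ × ℂ) (r : ℝ) (hr : r ≤ 1)
    (h : ∀ i, ∀ y : ℂ × ℂ, ‖y‖ < r → ‖σ i y‖ ≤ (1 / 2) * ‖y‖) (k : ℕ) :
    ∀ (i : ZMod 1) (y : ℂ × ℂ), ‖y‖ < r → ‖orb σ k i y‖ ≤ (1 / 2) ^ k * ‖y‖ := by
  induction k with
  | zero =>
    intro i y _
    rw [pow_zero, one_mul]
    exact le_refl _
  | succ k ih =>
    intro i y hy
    have h1 := h i y hy
    have h0 := norm_nonneg y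
    have h2 : ‖bA (σ i y)‖ ≤ ‖σ i y‖ := norm_bA_le _ (by linarith)
    have h3 := ih (i + 1) (bA (σ i y)) (by linarith)
    show ‖orb σ k (i + 1) (bA (σ i y))‖ ≤ _
    calc ‖orb σ k (i + 1) (bA (σ i y))‖ ≤ (1 / 2) ^ k * ‖bA (σ i y)‖ := h3
      _ ≤ (1 / 2) ^ k * ((1 / 2) * ‖y‖) :=
        mul_le_mul_of_nonneg_left (h2.trans h1) (by positivity)
      _ = (1 / 2) ^ (k + 1) * ‖y‖ := by rw [pow_succ]; ring

theorem osg0 (hI : S_INVD) (r : ℝ) (hr0 : 0 < r) (hr : r ≤ 1) (g : ℂ × ℂ → ℂ × ℂ)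
    (hd : DifferentiableOn ℂ g (Metric.ball 0 r)) (hinj : InjOn g (Metric.ball 0 r)) (h0 : g 0 = 0)
    (hle : ∀ y : ℂ × ℂ, ‖y‖ < r → ‖g y‖ ≤ (1 / 2) * ‖y‖) :
    Function.Injective (fderiv ℂ g 0) := by
  let K : KatoData 1 :=
    { U := fun _ => Metric.ball 0 r
      σ := fun _ => g
      isOpen_U := fun _ => Metric.isOpen_ball
      zero_mem := fun _ => Metric.mem_ball_self hr0
      diff := fun _ => hd
      inj := fun _ => hinj
      map_zero := fun _ => h0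
      maps := by
        intro i y hy
        rw [mem_ball_zero_iff] at hy ⊢
        have h1 := hle y hy
        have h3 := norm_nonneg y
        have h2 := norm_bA_le (g y) (by linarith)
        linarith
      contr := by
        intro i y hy
        rw [mem_ball_zero_iff] at hy
        have h1 := orb_le (fun _ => g) r hr (fun _ => hle)
        have h2 : Tendsto (fun k : ℕ => ((1 : ℝ) / 2) ^ k * ‖y‖) atTop (𝓝 (0 * ‖y‖)) :=
          (tendsto_pow_atTop_nhds_zero_of_lt_one (by norm_num) (by norm_num)).mul_const _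
        rw [zero_mul] at h2
        exact squeeze_zero_norm (fun k => h1 k i y hy) h2 }
  obtain ⟨A, hA⟩ := hI 1 K 0
  have h1 : fderiv ℂ g 0 = (A : (ℂ × ℂ) →L[ℂ] (ℂ × ℂ)) := hA
  rw [h1]
  exact A.injective

theorem osg (hI : S_INVD) (V : Set (ℂ × ℂ)) (ψ : ℂ × ℂ → ℂ × ℂ) (hV : IsOpen V)
    (hψ : DifferentiableOn ℂ ψ V) (hinj : InjOn ψ V) (y : ℂ × ℂ) (hy : y ∈ V) :
    ∃ A : (ℂ × ℂ) ≃L[ℂ] (ℂ × ℂ), fderiv ℂ ψ y = A := by
  have hD : HasFDerivAt ψ (fderiv ℂ ψ y) y := ((hψ y hy).differentiableAt (hV.mem_nhds hy)).hasFDerivAt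
  set D := fderiv ℂ ψ y with hDdef
  -- bound
  have hb : ∃ C : ℝ, 0 < C ∧ ∀ᶠ v in 𝓝 (0 : ℂ × ℂ), ‖ψ (y + v) - ψ y‖ ≤ C * ‖v‖ := by
    have h1 := hD.isBigO_sub
    obtain ⟨C, hC, h2⟩ := h1.exists_pos
    refine ⟨C, hC, ?_⟩
    have h3 := h2.bound
    have h4 : Tendsto (fun v : ℂ × ℂ => y + v) (𝓝 0) (𝓝 y) := by
      have h5 : ContinuousAt (fun v : ℂ × ℂ => y + v) 0 := by fun_prop
      have h6 := h5.tendsto
      simp only [add_zero] at h6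
      exact h6
    have h5 := h4.eventually h3
    filter_upwards [h5] with v hv
    rw [add_sub_cancel_left] at hv
    exact hv
  obtain ⟨C, hC, hC2⟩ := hb
  have hVy : ∀ᶠ v in 𝓝 (0 : ℂ × ℂ), y + v ∈ V := by
    have h5 : ContinuousAt (fun v : ℂ × ℂ => y + v) 0 := by fun_prop
    have h6 : V ∈ 𝓝 (y + 0) := by
      rw [add_zero]
      exact hV.mem_nhds hy
    exact h5.eventually h6
  obtain ⟨r, hr, hball⟩ := Metric.eventually_nhds_iff.mp (hC2.and hVy)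
  set r' : ℝ := min r 1 with hr'
  have hr'0 : 0 < r' := lt_min hr one_pos
  have hr'1 : r' ≤ 1 := min_le_right _ _
  set ε : ℝ := 1 / (2 * C) with hε
  have hε0 : 0 < ε := by positivity
  have hεC : ε * C = 1 / 2 := by
    rw [hε]
    field_simp
  have hεne : ((ε : ℝ) : ℂ) ≠ 0 := by
    exact_mod_cast hε0.ne'
  set g : ℂ × ℂ → ℂ × ℂ := fun v => ((ε : ℝ) : ℂ) • (ψ (y + v) - ψ y) with hg
  have hmem : ∀ v : ℂ × ℂ, v ∈ Metric.ball (0 : ℂ × ℂ) r' → ‖ψ (y + v) - ψ y‖ ≤ C * ‖v‖ ∧ y + v ∈ V := by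
    intro v hv
    rw [mem_ball_zero_iff] at hv
    exact hball (by rw [dist_zero_right]; exact lt_of_lt_of_le hv (min_le_left _ _))
  have hgd : HasFDerivAt g (((ε : ℝ) : ℂ) • D) 0 := by
    have h1 : HasFDerivAt (fun v : ℂ × ℂ => y + v) (ContinuousLinearMap.id ℂ (ℂ × ℂ)) 0 :=
      (hasFDerivAt_id (0 : ℂ × ℂ)).const_add y
    have h2 : HasFDerivAt ψ D (y + 0) := by
      rw [add_zero]
      exact hD
    have h3 := (h2.comp (0 : ℂ × ℂ) h1).sub_const (ψ y)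
    rw [ContinuousLinearMap.comp_id] at h3
    exact h3.const_smul ((ε : ℝ) : ℂ)
  have hinj' := osg0 hI r' hr'0 hr'1 g ?_ ?_ ?_ ?_
  · rw [hgd.fderiv] at hinj'
    have hDinj : Function.Injective (D : (ℂ × ℂ) →ₗ[ℂ] (ℂ × ℂ)) := by
      intro u v huv
      apply hinj'
      have h1 : D u = D v := huv
      show ((ε : ℝ) : ℂ) • D u = ((ε : ℝ) : ℂ) • D v
      rw [h1]
    let e : (ℂ × ℂ) ≃ₗ[ℂ] (ℂ × ℂ) := LinearEquiv.ofInjectiveEndo _ hDinj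
    refine ⟨e.toContinuousLinearEquiv, ?_⟩
    ext <;> rfl
  · intro v hv
    have h2 := (hmem v hv).2
    have h3 : DifferentiableAt ℂ ψ (y + v) := (hψ _ h2).differentiableAt (hV.mem_nhds h2)
    have h4 : DifferentiableAt ℂ (fun v : ℂ × ℂ => y + v) v := by fun_prop
    have h5 : DifferentiableAt ℂ (fun v : ℂ × ℂ => ψ (y + v)) v := h3.comp v h4
    exact ((h5.sub_const (ψ y)).const_smul ((ε : ℝ) : ℂ)).differentiableWithinAt
  · intro u hu v hv huv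
    have h1 : ψ (y + u) - ψ y = ψ (y + v) - ψ y := smul_right_injective _ hεne huv
    have h2 : ψ (y + u) = ψ (y + v) := sub_left_injective h1
    have h3 := hinj (hmem u hu).2 (hmem v hv).2 h2
    exact add_left_cancel h3
  · show ((ε : ℝ) : ℂ) • (ψ (y + 0) - ψ y) = 0
    rw [add_zero, sub_self, smul_zero]
  · intro v hv
    have h1 := (hmem v (by rw [mem_ball_zero_iff]; exact hv)).1
    show ‖((ε : ℝ) : ℂ) • (ψ (y + v) - ψ y)‖ ≤ _
    rw [norm_smul, Complex.norm_real, Real.norm_of_nonneg hε0.le]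
    calc ε * ‖ψ (y + v) - ψ y‖ ≤ ε * (C * ‖v‖) := mul_le_mul_of_nonneg_left h1 hε0.le
      _ = (ε * C) * ‖v‖ := by ring
      _ = 1 / 2 * ‖v‖ := by rw [hεC]

/-- the second coordinate of an injective holomorphic map is different from a given value at points
arbitrarily near to a given point -/
theorem neBot_of (hI : S_INVD) (V : Set (ℂ × ℂ)) (f : ℂ × ℂ → ℂ × ℂ) (hV : IsOpen V)
    (hf : DifferentiableOn ℂ f V) (hinj : InjOn f V) (y : ℂ × ℂ) (hy : y ∈ V) :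
    (𝓝[{y' | (f y').2 ≠ 0}] y).NeBot := by
  obtain ⟨A, hA⟩ := osg hI V f hV hf hinj y hy
  have hD : HasFDerivAt f (A : (ℂ × ℂ) →L[ℂ] (ℂ × ℂ)) y := by
    rw [← hA]
    exact ((hf y hy).differentiableAt (hV.mem_nhds hy)).hasFDerivAt
  set v : ℂ × ℂ := A.symm (0, 1) with hv
  have hAv : A v = (0, 1) := A.apply_symm_apply _
  have h1 : HasDerivAt (fun t : ℂ => y + t • v) v 0 := by
    have h2 : HasDerivAt (fun t : ℂ => t • v) ((1 : ℂ) • v) 0 := (hasDerivAt_id (0 : ℂ)).smul_const v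
    rw [one_smul] at h2
    exact h2.const_add y
  have hD' : HasFDerivAt f (A : (ℂ × ℂ) →L[ℂ] (ℂ × ℂ)) (y + (0 : ℂ) • v) := by
    rw [zero_smul, add_zero]
    exact hD
  have h3 : HasDerivAt (f ∘ fun t : ℂ => y + t • v) ((A : (ℂ × ℂ) →L[ℂ] (ℂ × ℂ)) v) 0 :=
    HasFDerivAt.comp_hasDerivAt (𝕜 := ℂ) (0 : ℂ) hD' h1
  have h3' : HasDerivAt (fun t : ℂ => f (y + t • v)) (A v) 0 := h3
  rw [hAv] at h3'
  have h4 : HasDerivAt (fun t : ℂ => (f (y + t • v)).2) 1 0 := h3'.snd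
  have h5 : ∀ᶠ t in 𝓝[≠] (0 : ℂ), (f (y + t • v)).2 ≠ 0 := h4.eventually_ne one_ne_zero
  have h6 : Tendsto (fun t : ℂ => y + t • v) (𝓝[≠] (0 : ℂ)) (𝓝 y) := by
    have h7 : ContinuousAt (fun t : ℂ => y + t • v) 0 := by fun_prop
    have h8 := h7.tendsto
    simp only [zero_smul, add_zero] at h8
    exact h8.mono_left nhdsWithin_le_nhds
  have h9 : Tendsto (fun t : ℂ => y + t • v) (𝓝[≠] (0 : ℂ)) (𝓝[{y' | (f y').2 ≠ 0}] y) :=
    tendsto_nhdsWithin_iff.2 ⟨h6, h5⟩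
  exact h9.neBot

theorem t_DIR (h1 : S_LIFT) (hI : S_INVD) : S_DIR := by
  intro n K K' V ψ δ' hC
  have hinv : ∀ i, ∃ A : (ℂ × ℂ) ≃L[ℂ] (ℂ × ℂ), fderiv ℂ (ψ i) 0 = A := fun i =>
    osg hI (V i) (ψ i) (hC.isOpen i) (hC.diff i) (hC.inj i) 0
      (hC.ball_sub i (Metric.mem_ball_self hC.pos))
  refine ⟨hinv, ?_⟩
  intro i y hy ha hb
  have h0V : ∀ j, (0 : ℂ × ℂ) ∈ V j := fun j => hC.ball_sub j (Metric.mem_ball_self hC.pos)
  have hbA0 : bA (K.σ i y) = 0 := by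
    rw [bA, hb, mul_zero]
    rfl
  have e1 : bA (K'.σ i (ψ i y)) = 0 := by
    rw [hC.conj i y hy, hbA0, hC.zero]
  have hb' : (K'.σ i (ψ i y)).2 = 0 := by
    have h2 := congrArg Prod.snd e1
    exact h2
  have hmemU' : ∀ y' ∈ V i, ψ i y' ∈ K'.U i := by
    intro y' hy'
    rw [hC.U_eq]
    exact mem_image_of_mem _ hy'
  have ha' : (K'.σ i (ψ i y)).1 ≠ 0 := by
    intro h
    have h2 : K'.σ i (ψ i y) = K'.σ i 0 := by
      rw [K'.map_zero]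
      exact Prod.ext h hb'
    have h3 : ψ i y = 0 := K'.inj i (hmemU' y hy) (K'.zero_mem i) h2
    have h4 : y = 0 := hC.inj i hy (h0V i) (by rw [h3, hC.zero])
    apply ha
    rw [h4, K.map_zero]
    rfl
  refine ⟨ha', hb', ?_⟩
  obtain ⟨O, Ψ, hO, h0O, hΨ, -, hΨ2, hΨ3⟩ := h1 (V (i + 1)) (ψ (i + 1)) (hC.isOpen _) (h0V _)
    (hC.diff _) (hC.zero _) (hC.dir _) (hinv _) (K.σ i y).1⁻¹
  have hne : (𝓝[{y' | (K.σ i y').2 ≠ 0}] y).NeBot :=
    neBot_of hI (K.U i) (K.σ i) (K.isOpen_U i) (K.diff i) (K.inj i) y (hC.subU i hy)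
  have hsc : ContinuousAt (K.σ i) y :=
    ((K.diff i y (hC.subU i hy)).differentiableAt ((K.isOpen_U i).mem_nhds (hC.subU i hy))).continuousAt
  have hψc : ContinuousAt (ψ i) y :=
    ((hC.diff i y hy).differentiableAt ((hC.isOpen i).mem_nhds hy)).continuousAt
  have hsc' : ContinuousAt (K'.σ i) (ψ i y) :=
    ((K'.diff i _ (hmemU' y hy)).differentiableAt
      ((K'.isOpen_U i).mem_nhds (hmemU' y hy))).continuousAt
  have hpc : ContinuousAt (fun y' => K'.σ i (ψ i y')) y := ContinuousAt.comp hsc' hψc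
  have hac : ContinuousAt (fun y' => (K.σ i y').1) y := continuousAt_fst.comp hsc
  have hbc : ContinuousAt (fun y' => (K.σ i y').2) y := continuousAt_snd.comp hsc
  have hac' : ContinuousAt (fun y' => (K'.σ i (ψ i y')).1) y := continuousAt_fst.comp hpc
  have hz : ContinuousAt (fun y' => bK (K.σ i y')) y := by
    have h2 : ContinuousAt (fun y' => ((K.σ i y').1 * (K.σ i y').2, (K.σ i y').1⁻¹)) y :=
      (hac.mul hbc).prodMk (hac.inv₀ ha)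
    exact h2
  have hzy : bK (K.σ i y) = (0, (K.σ i y).1⁻¹) := by
    rw [bK, hb, mul_zero]
  have hΨc : ContinuousAt Ψ (bK (K.σ i y)) := by
    rw [hzy]
    exact ((hΨ _ h0O).differentiableAt (hO.mem_nhds h0O)).continuousAt
  have hΨz : ContinuousAt (fun y' => Ψ (bK (K.σ i y'))) y := ContinuousAt.comp hΨc hz
  have hΨz2 : ContinuousAt (fun y' => (Ψ (bK (K.σ i y'))).2) y := continuousAt_snd.comp hΨz
  have hev : ∀ᶠ y' in 𝓝[{y' | (K.σ i y').2 ≠ 0}] y,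
      (Ψ (bK (K.σ i y'))).2 = (K'.σ i (ψ i y')).1⁻¹ := by
    have m1 : ∀ᶠ y' in 𝓝 y, y' ∈ V i := (hC.isOpen i).mem_nhds hy
    have m2 : ∀ᶠ y' in 𝓝 y, (K.σ i y').1 ≠ 0 := hac.eventually_ne ha
    have m3 : ∀ᶠ y' in 𝓝 y, (K'.σ i (ψ i y')).1 ≠ 0 := hac'.eventually_ne ha'
    have m4 : ∀ᶠ y' in 𝓝 y, bK (K.σ i y') ∈ O := by
      have h2 : O ∈ 𝓝 (bK (K.σ i y)) := by
        rw [hzy]
        exact hO.mem_nhds h0O
      exact hz.eventually h2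
    have m5 : ∀ᶠ y' in 𝓝[{y' | (K.σ i y').2 ≠ 0}] y, (K.σ i y').2 ≠ 0 :=
      self_mem_nhdsWithin
    filter_upwards [m5, nhdsWithin_le_nhds m1, nhdsWithin_le_nhds m2, nhdsWithin_le_nhds m3,
      nhdsWithin_le_nhds m4] with y' k5 k1 k2 k3 k4
    obtain ⟨-, q2, -⟩ := hΨ2 _ k4
    have q1 : bB (bK (K.σ i y')) = bA (K.σ i y') := by
      rw [bB, bK, bA]
      refine Prod.ext rfl ?_
      show (K.σ i y').1 * (K.σ i y').2 * (K.σ i y').1⁻¹ = (K.σ i y').2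
      field_simp
    rw [q1, ← hC.conj i y' k1] at q2
    have q3 : (Ψ (bK (K.σ i y'))).1 = (K'.σ i (ψ i y')).1 * (K'.σ i (ψ i y')).2 :=
      congrArg Prod.fst q2
    have q4 : (Ψ (bK (K.σ i y'))).1 * (Ψ (bK (K.σ i y'))).2 = (K'.σ i (ψ i y')).2 :=
      congrArg Prod.snd q2
    have q5 : (K'.σ i (ψ i y')).2 ≠ 0 := by
      intro h
      have h2 : bA (K'.σ i (ψ i y')) = 0 := by
        rw [bA, h, mul_zero]
        rfl
      rw [hC.conj i y' k1] at h2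
      have h3 : bA (K.σ i y') = 0 :=
        hC.inj (i + 1) (hC.maps i y' k1) (h0V _) (by rw [h2, hC.zero])
      exact k5 (congrArg Prod.snd h3)
    rw [q3] at q4
    have q6 : ((K'.σ i (ψ i y')).1 * (Ψ (bK (K.σ i y'))).2) * (K'.σ i (ψ i y')).2 =
        1 * (K'.σ i (ψ i y')).2 := by
      rw [one_mul]
      calc ((K'.σ i (ψ i y')).1 * (Ψ (bK (K.σ i y'))).2) * (K'.σ i (ψ i y')).2
          = (K'.σ i (ψ i y')).1 * (K'.σ i (ψ i y')).2 * (Ψ (bK (K.σ i y'))).2 := by ring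
        _ = (K'.σ i (ψ i y')).2 := q4
    have q7 := mul_right_cancel₀ q5 q6
    exact eq_inv_of_mul_eq_one_right q7
  have t1 : Tendsto (fun y' => (Ψ (bK (K.σ i y'))).2) (𝓝[{y' | (K.σ i y').2 ≠ 0}] y)
      (𝓝 (Ψ (bK (K.σ i y))).2) := hΨz2.tendsto.mono_left nhdsWithin_le_nhds
  have t2 : Tendsto (fun y' => (K'.σ i (ψ i y')).1⁻¹) (𝓝[{y' | (K.σ i y').2 ≠ 0}] y)
      (𝓝 (K'.σ i (ψ i y)).1⁻¹) := (hac'.inv₀ ha').tendsto.mono_left nhdsWithin_le_nhds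
  have t3 := t1.congr' hev
  have t4 := tendsto_nhds_unique t2 t3
  rw [t4, hzy, hΨ3 _ h0O]

end Pool.Agent.H370.KT
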